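import Mathlib
import Pool.Agent.Lib.helper17.Tope

set_option autoImplicit false

namespace Pool.Agent.Results.MP_04f01b_co.Counter

open H17Tope Polynomial Matrix

/-- Normal vectors of six hyperplanes in `R^4`. -/
def normals : Fin 6 → Fin 4 → ℤ :=
  ![![1, 0, 0, 0], ![0, 1, 0, 0], ![0, 0, 1, 0], ![0, 0, 0, 1], ![1, 0, -1, -1], ![0, 1, 1, 0]]

/-- The same normal vectors, as real vectors. -/
def A : Fin 6 → Fin 4 → ℝ := fun i j => normals i j

def W : List (List ℤ) :=
  [[1, 1, 1, 2, 3, 2, 1, 1, 1], [1, 0, -1, -1, 0, -1, -1, 0, 1], [1, 1, 2, 2, 3, 2, 2, 1, 1], [1,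
  0, 0, 0, 2, 0, 0, 0, 1], [1, 1, 1, 1, 2, 1, 1, 1, 1], [1, 0, 1, 0, 2, 0, 1, 0, 1]]

def tb : ℕ := 45832594422234749298105850410103375650784739062395034443511311641156132086032

def L : List (List ℤ × ℕ × List ℤ) := List.map (fun x : ℕ => ((List.range 4).map
    fun j => ((x / 16384 / 11 ^ j % 11 : ℕ) : ℤ) - 5, x % 1024, W.getD (x / 1024 % 16) []))
  [95551488, 94277634, 77906948, 103368709, 139559944, 182845449, 137923594, 203395083, 143327244,
  143377421, 95945744, 95977489, 72502290, 72552467, 55934996, 77956117, 135235608, 139592729,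
  135959578, 137972763, 143228957, 96452642, 80071716, 103732261, 100271142, 104269863, 140084266,
  183746603, 145494060, 145542189, 143884334, 143918127, 74662962, 74711091, 36474932, 80120885,
  56655926, 100303927, 136497210, 140133435, 145592381, 143949887]

theorem result : IsArr A ∧ rk A = 4 ∧ ¬ VT (tope A) ∧ ¬ cyclotomic 6 ℚ ∣ (Mag A).denom := by
  obtain ⟨m, v⟩ := final normals L
    [(32, 6), (6, 32), (28, 1), (1, 28), (56, 3), (3, 56)]
    [1, 5, 12, 19, 24, 29, 35, 38, 35, 29, 24, 19, 12, 5, 1]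
    [42, 22, 16, 26, 76, 26, 16, 22, 42]
    76 1048576 0 2 (fun z => tb >>> (4 * z) % 16) (by decide +kernel) (by decide +kernel) (by decide +kernel) (by decide +kernel)
    (by decide +kernel) (by decide +kernel) (by decide +kernel) (by decide +kernel)
    (by decide +kernel) (by decide +kernel) (by decide +kernel) (by decide +kernel)
    (by decide +kernel)
  refine ⟨⟨fun i g => ?_, fun i j g => ?_⟩, ?_, v, fun g => ?_⟩
  · exact (by decide : ∀ i, normals i ≠ 0) i
      (funext fun j => Int.cast_eq_zero.mp (congrFun g j : (normals i j : ℝ) = 0))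
  · obtain ⟨k, l, c⟩ := (by decide +kernel : ∀ i j, ∃ k l, i ≠ j →
      normals j k * normals i l - normals j l * normals i k ≠ 0) i j
    by_contra f
    have : (Pi.single k (A i l) - Pi.single l (A i k) : Fin 4 → ℝ) ∈ hyp A j := by
      rw [← g]; simp [hyp, mul_comm]
    simp only [hyp, LinearMap.mem_ker, dotProductBilin_apply_apply, dotProduct_sub,
      dotProduct_single, A] at this
    exact c f (by exact_mod_cast this)
  · rw [rk, show ⨅ i, hyp A i = ⊥ from eq_bot_iff.mpr fun x hx => funext fun j => by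
      have := (Submodule.mem_iInf _).mp hx (j.castLE (by norm_num))
      fin_cases j <;> simpa [hyp, A, normals, dotProduct, Fin.sum_univ_succ] using this]
    simp
  have e : Mag A * algebraMap _ _ (pl ℚ [1, 6, 17, 30, 37, 36, 34, 36, 37, 30, 17, 6, 1]) =
      algebraMap _ _ (pl ℚ [42, 64, 38, 0, 38, 64, 42]) := by
    refine mul_right_cancel₀ (b := algebraMap ℚ[X] (RatFunc ℚ) (pl ℚ [1, -1, 1]))
      ((map_ne_zero_iff _ (IsFractionRing.injective _ _)).mpr fun g => by
        simpa [cpl] using congrArg (coeff · 0) g) ?_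
    rw [mul_assoc, ← map_mul, ← map_mul]
    convert m using 3 <;> first | rfl | (simp [pl]; ring)
  have n0 : pl ℚ [1, 6, 17, 30, 37, 36, 34, 36, 37, 30, 17, 6, 1] ≠ 0 := fun g => by
    simpa [cpl] using congrArg (coeff · 0) g
  have c : cyclotomic 6 ℚ = pl ℚ [1, -1, 1] := by
    rw [cyclotomic_six]; simp [pl]; ring
  have := (g.trans ((RatFunc.denom_dvd n0).mpr ⟨_, eq_div_of_mul_eq
    ((map_ne_zero_iff _ (IsFractionRing.injective _ _)).mpr n0) e⟩)).mul_right (pl ℚ [-1])
  have := natDegree_le_of_dvd (show cyclotomic 6 ℚ ∣ C 36 by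
    convert dvd_add (dvd_mul_right _ (pl ℚ [37, 43, 23, 10, 24, 50, 60, 46, 23, 7, 1])) this using 1
    rw [c, map_ofNat]; simp [pl]; ring) (by simp)
  rw [natDegree_cyclotomic, natDegree_C] at this
  exact absurd this (by decide)

end Pool.Agent.Results.MP_04f01b_co.Counter
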